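import Pool.Agent.ZES.StmtsB

set_option autoImplicit false

/-! Row HOL of the squad ZES: locally uniformly summable series of entire functions. -/

namespace Pool.Agent.ZES.H43

open Pool.Agent.ZES

theorem hol (h1 : CauStmt) : HolStmt := by
  intro V ι _ _ f hf hu x
  obtain ⟨u, hus, hub⟩ := hu (‖x‖ + 1 + 1)
  have hnn : ∀ i, 0 ≤ u i := fun i =>
    (norm_nonneg (f i x)).trans (hub i x (by linarith))
  have hx : x ∈ Metric.ball (0 : V) (‖x‖ + 1) := by
    rw [mem_ball_zero_iff]
    linarith
  have hd := hasFDerivAt_tsum_of_isPreconnected (𝕜 := ℂ) (f := f)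
    (f' := fun i y => fderiv ℂ (f i) y) hus
    (Metric.isOpen_ball (x := (0 : V)) (ε := ‖x‖ + 1))
    (convex_ball (0 : V) (‖x‖ + 1)).isPreconnected
    (fun i y _ => (hf i y).hasFDerivAt)
    (fun i y hy => by
      rw [mem_ball_zero_iff] at hy
      refine ContinuousLinearMap.opNorm_le_bound _ (hnn i) (fun v => ?_)
      refine h1 V (f i) (hf i) y (u i) (fun z hz => hub i z ?_) v
      have h2 : ‖z‖ ≤ ‖z - y‖ + ‖y‖ := by
        have := norm_add_le (z - y) y
        rwa [sub_add_cancel] at this
      linarith)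
    hx
    (Summable.of_norm_bounded hus (fun i => hub i x (by linarith)))
    hx
  exact hd.differentiableAt

end Pool.Agent.ZES.H43
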